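import Mathlib
import Pool.Agent.Helper394.Spec

open Finset Filter Topology

namespace Pool.Agent.Results.MP_c130e3_pr.SeparationFalse

noncomputable section

section defs

variable {Ω : Type} [Fintype Ω] [DecidableEq Ω]

/-- `Q` is the generator of a continuous-time Markov chain on the finite set `Ω`:
nonnegative off-diagonal rates and zero row sums. -/
def IsGenerator (Q : Matrix Ω Ω ℝ) : Prop :=
  (∀ x y, x ≠ y → 0 ≤ Q x y) ∧ ∀ x, ∑ y, Q x y = 0

/-- Heat kernel `H_t(x,y) = exp(t Q) x y`. -/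
def heat (Q : Matrix Ω Ω ℝ) (t : ℝ) : Matrix Ω Ω ℝ := NormedSpace.exp (t • Q)

/-- The chain is irreducible: every state can be reached from every state. -/
def IsIrreducible (Q : Matrix Ω Ω ℝ) : Prop := ∀ x y, ∃ t : ℝ, 0 < t ∧ 0 < heat Q t x y

/-- The probability vector `π` is positive and the chain is reversible with respect to it
(so `π` is its stationary distribution). -/
def IsReversible (Q : Matrix Ω Ω ℝ) (π : Ω → ℝ) : Prop :=
  (∀ x, 0 < π x) ∧ ∑ x, π x = 1 ∧ ∀ x y, π x * Q x y = π y * Q y x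

/-- Separation distance, worst start: `d(t) = max_{x,y} (1 - H_t(x,y)/π(y))`. -/
def sep (Q : Matrix Ω Ω ℝ) (π : Ω → ℝ) (t : ℝ) : ℝ :=
  ⨆ p : Ω × Ω, (1 - heat Q t p.1 p.2 / π p.2)

/-- Mixing time `inf {t ≥ 0 : d(t) ≤ ε}`. -/
def tmix (Q : Matrix Ω Ω ℝ) (π : Ω → ℝ) (ε : ℝ) : ℝ := sInf {t : ℝ | 0 ≤ t ∧ sep Q π t ≤ ε}

/-- Spectral gap: the smallest nonzero eigenvalue of `-Q`. -/
def gap (Q : Matrix Ω Ω ℝ) : ℝ := sInf {r : ℝ | r ∈ spectrum ℝ (-Q) ∧ r ≠ 0}

end defs

section seqdefs

variable (Ω : ℕ → Type) [∀ n, Fintype (Ω n)] [∀ n, DecidableEq (Ω n)]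
  (Q : ∀ n, Matrix (Ω n) (Ω n) ℝ) (π : ∀ n, Ω n → ℝ)

/-- `M = limsup_n d_n(0)`. -/
def limM : ℝ := limsup (fun n => sep (Q n) (π n) 0) atTop

/-- Condition (1): `λ_n t_n → ∞`. -/
def Cond1 (ε : ℝ) : Prop :=
  Tendsto (fun n => gap (Q n) * tmix (Q n) (π n) ε) atTop atTop

/-- Condition (2): cutoff at time `t_n`: for every `δ ∈ (0,1)`, `d_n((1+δ)t_n) → 0` and
`d_n((1-δ)t_n) → M`. -/
def Cond2 (ε : ℝ) : Prop :=
  ∀ δ : ℝ, 0 < δ → δ < 1 →
    Tendsto (fun n => sep (Q n) (π n) ((1 + δ) * tmix (Q n) (π n) ε)) atTop (𝓝 0) ∧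
    Tendsto (fun n => sep (Q n) (π n) ((1 - δ) * tmix (Q n) (π n) ε)) atTop
      (𝓝 (limM Ω Q π))

end seqdefs

/-- For the separation distance, the spectral criterion (1) does not imply cutoff (2): there is
a family of irreducible reversible finite continuous-time chains with `M = 1` such that, for
every threshold `ε ∈ (0,1/2]`, condition (1) holds and condition (2) fails. -/
theorem result :
    ∃ (Ω : ℕ → Type) (_ : ∀ n, Fintype (Ω n)) (_ : ∀ n, DecidableEq (Ω n))
      (Q : ∀ n, Matrix (Ω n) (Ω n) ℝ) (π : ∀ n, Ω n → ℝ),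
      (∀ n, IsGenerator (Q n)) ∧
      (∀ n, IsIrreducible (Q n)) ∧
      (∀ n, IsReversible (Q n) (π n)) ∧
      (∀ n, 0 < gap (Q n)) ∧
      limM Ω Q π = 1 ∧
      ∀ ε : ℝ, 0 < ε → ε ≤ 1 / 2 → Cond1 Ω Q π ε ∧ ¬ Cond2 Ω Q π ε := by
  choose N hN S hTN hS using fun n : ℕ => Helper394.exists_bad (8 * (n + 8)) (by omega)
  let Q : ∀ n, Matrix (ZMod (N n)) (ZMod (N n)) ℝ := fun n => Helper394.Pn (S n) - 1
  let π : ∀ n, ZMod (N n) → ℝ := fun n _ => 1 / (Fintype.card (ZMod (N n)) : ℝ)
  have hP : ∀ n, ∀ f : ZMod (N n) → ℝ, (Helper394.Pn (S n)).mulVec f = Helper394.U (S n) f :=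
    fun n f => Helper394.Pn_mulVec (S n) f
  have hcard : ∀ n, (0 : ℝ) < Fintype.card (ZMod (N n)) := fun n => by
    exact_mod_cast Fintype.card_pos
  have hfact : ∀ n, Fact (1 < N n) := fun n => ⟨by have := hTN n; omega⟩
  have hlow : ∀ n t, 0 ≤ t → t ≤ 4 * ((n + 8 : ℕ) : ℝ) → 1 / 2 < sep (Q n) (π n) t := by
    intro n t ht0 ht
    have hG := hcard n
    by_contra hcon
    push Not at hcon
    have h := Helper394.heat_lower (m := n + 8) (by omega) (hS n) (hP n) t ht0 ht 0
    have h4 : ∀ y, (1 / 2 : ℝ) / (Fintype.card (ZMod (N n)) : ℝ) ≤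
        (NormedSpace.exp (t • (Helper394.Pn (S n) - 1))) 0 y := by
      intro y
      have h5 := (Helper394.ciSup_ge_val
        (fun p : ZMod (N n) × ZMod (N n) => (1 - heat (Q n) t p.1 p.2 / π n p.2))
        (0, y)).trans hcon
      simp only [π, div_div_eq_mul_div, div_one] at h5
      rw [div_le_iff₀ hG]
      have h6 : heat (Q n) t 0 y = (NormedSpace.exp (t • (Helper394.Pn (S n) - 1))) 0 y := rfl
      rw [h6] at h5
      linarith
    have h6 := Helper394.tv_le _
      (Helper394.heat_row_sum (m := n + 8) (hS n) (hP n) t ht0 0) (1 / 2) h4 (by norm_num)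
    linarith
  have hup : ∀ n t, 2 * ((n + 8 : ℕ) : ℝ) ≤ t → sep (Q n) (π n) t ≤ 1 - 1 / 2000 := by
    intro n t ht
    have hG := hcard n
    apply ciSup_le
    intro p
    have h4 := Helper394.heat_upper_entry (m := n + 8) (by omega) (hS n) (hP n) t ht p.1 p.2
    have h6 : heat (Q n) t p.1 p.2 =
      (NormedSpace.exp (t • (Helper394.Pn (S n) - 1))) p.1 p.2 := rfl
    rw [h6]
    simp only [π, div_div_eq_mul_div, div_one]
    rw [div_le_iff₀ hG] at h4
    linarith
  have hconv : ∀ n ε, 0 < ε → ∃ t, 0 ≤ t ∧ sep (Q n) (π n) t ≤ ε := by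
    intro n ε hε
    have hG := hcard n
    obtain ⟨t, ht0, ht⟩ := Helper394.heat_conv (m := n + 8) (by omega) (hS n) (hP n)
      (ε / Fintype.card (ZMod (N n))) (by positivity)
    refine ⟨t, ht0, ciSup_le fun p => ?_⟩
    have h4 := (abs_le.mp (ht p.1 p.2)).1
    have h6 : heat (Q n) t p.1 p.2 =
      (NormedSpace.exp (t • (Helper394.Pn (S n) - 1))) p.1 p.2 := rfl
    rw [h6]
    simp only [π, div_div_eq_mul_div, div_one]
    have h5 := mul_le_mul_of_nonneg_right h4 hG.le
    have e1 : -(ε / (Fintype.card (ZMod (N n)) : ℝ)) * (Fintype.card (ZMod (N n)) : ℝ) = -ε := by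
      field_simp
    rw [e1, sub_mul] at h5
    have e2 : 1 / (Fintype.card (ZMod (N n)) : ℝ) * (Fintype.card (ZMod (N n)) : ℝ) = 1 := by
      field_simp
    rw [e2] at h5
    linarith
  have hneg : ∀ n, -(Q n) = 1 - Helper394.Pn (S n) := fun n => by simp [Q]
  have hgap : ∀ n, 1 / 4 ≤ gap (Q n) := by
    intro n
    have hf := hfact n
    apply le_csInf
    · obtain ⟨r, hr, hr0⟩ := Helper394.gap_real_exists (hS n) (hP n)
        (ZMod.stdAddChar.mulShift 1) (ZMod.isPrimitive_stdAddChar (N n) one_ne_zero)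
      exact ⟨r, by rw [hneg]; exact hr, hr0⟩
    · rintro r ⟨hr, hr0⟩
      rw [hneg] at hr
      exact Helper394.gap_real (hS n) (hP n) r hr hr0
  have htau : ∀ n ε, 0 < ε → ε ≤ 1 / 2 → 4 * ((n + 8 : ℕ) : ℝ) ≤ tmix (Q n) (π n) ε := by
    intro n ε hε hε2
    apply le_csInf
    · exact hconv n ε hε
    · rintro t ⟨ht0, ht⟩
      by_contra hcon
      push Not at hcon
      have := hlow n t ht0 hcon.le
      linarith
  have hsep0 : ∀ n, sep (Q n) (π n) 0 = 1 := by
    intro n
    have hf := hfact n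
    have hG := hcard n
    have e0 : ∀ p : ZMod (N n) × ZMod (N n), heat (Q n) 0 p.1 p.2 =
        (1 : Matrix (ZMod (N n)) (ZMod (N n)) ℝ) p.1 p.2 := by
      intro p
      rw [heat, zero_smul, NormedSpace.exp_zero]
    apply le_antisymm
    · apply ciSup_le
      intro p
      rw [e0]
      have : (0 : ℝ) ≤ (1 : Matrix (ZMod (N n)) (ZMod (N n)) ℝ) p.1 p.2 / π n p.2 := by
        apply div_nonneg
        · rw [Matrix.one_apply]; split_ifs <;> norm_num
        · simp only [π]; positivity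
      linarith
    · have h1 := Helper394.ciSup_ge_val
        (fun p : ZMod (N n) × ZMod (N n) => (1 - heat (Q n) 0 p.1 p.2 / π n p.2)) (0, 1)
      refine le_trans ?_ h1
      rw [e0, Matrix.one_apply_ne (zero_ne_one)]
      simp
  have hM : limM (fun n => ZMod (N n)) Q π = 1 := by
    unfold limM
    simp only [hsep0]
    exact limsup_const 1
  refine ⟨fun n => ZMod (N n), fun n => inferInstance, fun n => inferInstance, Q, π,
    ?_, ?_, ?_, ?_, hM, ?_⟩
  · intro n
    refine ⟨?_, ?_⟩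
    · intro x y hxy
      have : Q n x y = Helper394.Pn (S n) x y := by
        simp only [Q, Matrix.sub_apply, Matrix.one_apply_ne hxy, sub_zero]
      rw [this, Helper394.Pn]
      split_ifs
      · positivity
      · exact le_rfl
    · intro x
      simp only [Q, Matrix.sub_apply, Finset.sum_sub_distrib]
      have h1 := Helper394.mat_sum (hP n) 1 x (fun _ => 1)
      rw [pow_one, pow_one, Helper394.U_const _ (hS n).nonempty] at h1
      simp only [mul_one] at h1
      rw [h1]
      simp [Matrix.one_apply]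
  · intro n x y
    have hG := hcard n
    refine ⟨2 * ((n + 8 : ℕ) : ℝ), by positivity, ?_⟩
    have := Helper394.heat_upper_entry (m := n + 8) (by omega) (hS n) (hP n)
      (2 * ((n + 8 : ℕ) : ℝ)) le_rfl x y
    refine lt_of_lt_of_le (by positivity) this
  · intro n
    have hG := hcard n
    refine ⟨fun x => by simp only [π]; positivity, ?_, ?_⟩
    · simp only [π, Finset.sum_const, Finset.card_univ, nsmul_eq_mul]
      field_simp
    · intro x y
      simp only [π, Q, Matrix.sub_apply]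
      have h2 : (y - x ∈ S n) ↔ (x - y ∈ S n) := by
        constructor
        · intro h; have := (hS n).neg _ h; rwa [neg_sub] at this
        · intro h; have := (hS n).neg _ h; rwa [neg_sub] at this
      have h3 : Helper394.Pn (S n) x y = Helper394.Pn (S n) y x := by
        simp only [Helper394.Pn, h2]
      have h4 : (1 : Matrix (ZMod (N n)) (ZMod (N n)) ℝ) x y =
          (1 : Matrix (ZMod (N n)) (ZMod (N n)) ℝ) y x := by
        simp only [Matrix.one_apply, eq_comm]
      rw [h3, h4]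
  · intro n
    have := hgap n
    linarith
  · intro ε hε hε2
    refine ⟨?_, ?_⟩
    · refine tendsto_atTop_mono (fun n => ?_) tendsto_natCast_atTop_atTop
      have h1 := hgap n
      have h2 := htau n ε hε hε2
      push_cast at h2
      have h3 : (0 : ℝ) ≤ n := by positivity
      nlinarith
    · intro hcut
      have h1 := (hcut (1 / 2) (by norm_num) (by norm_num)).2
      rw [hM] at h1
      have h2 : ∀ n, sep (Q n) (π n) ((1 - 1 / 2) * tmix (Q n) (π n) ε) ≤ 1 - 1 / 2000 := by
        intro n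
        apply hup
        have h3 := htau n ε hε hε2
        linarith
      have h3 := le_of_tendsto' h1 h2
      norm_num at h3

end

end Pool.Agent.Results.MP_c130e3_pr.SeparationFalse
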